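import Pool.Agent.Run7.h976.FX.Quad

/-!
# Szemerédi's theorem for the prime values of almost all quadratic polynomials

For all but `H³ / (log H) ^ U` of the triples `(a, b, c)` of height at most `H` the following holds in ALL
windows `(m, m + M]` with `H ^ θ ≤ M`, `m ≤ M (log H) ^ A` and `m + M ≤ H / (log H) ^ B`: the set of the
arguments `t` of the window at which `f(t) = a t² + b t + c` is prime has the size predicted by Conjecture F
of Hardy and Littlewood and satisfies Szemerédi's theorem relative to this size: all but `ε` times this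
number of the elements of every subset lie in `k`-term progressions contained in the subset, even with
differences at most `(log H) ^ B`.

Starting files used: Szemerédi's theorem relative to arbitrary sifted sets (`Y843/HS/Top`, helper843 and
others), the Bateman-Horn formula with cut products for almost all polynomials of height `H`
(`TH892/FullBox4`, `H300R2`), the comparison of the cut products with the constant (`TH892/CF3`, `W468`,
`Y737/LW/Qc1`), covariances of the numbers of roots for a fixed polynomial (`Y438/LW/Lt0`). New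
(`Run7/h976/FX`): for all but few polynomials of the box the sieve product up to a power of `H` is at most a
constant times the singular series over `log H` (a second moment over the fibres of the box, uniform in the
polynomial, and a bound for the fibres with a large common prime divisor), so that the set of the `t` with
`|f(t)|` prime is a dense subset of a sifted set with its true size, for all windows at once.
-/

set_option autoImplicit false

namespace Pool.Agent.Results.MP_a17b09_nt.ProgressionsForAlmostAll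

open Finset Filter Topology

/-- The triple `(a, b, c)` is admissible. -/
def Admissible (a b c : ℤ) : Prop :=
  0 < a ∧ (∀ d : ℤ, d ∣ a → d ∣ b → d ∣ c → IsUnit d) ∧ ¬ (Even (a + b) ∧ Even c) ∧
    ¬ IsSquare (b ^ 2 - 4 * a * c)

/-- The value `f(t) = a t² + b t + c`. -/
def f (a b c : ℤ) (t : ℕ) : ℤ := a * (t : ℤ) ^ 2 + b * t + c

/-- The constant `C(a, b, c)` of Conjecture F, with the primes `p ≤ z` only. -/
noncomputable def partialC (a b c : ℤ) (z : ℕ) : ℝ :=
  (if Even (a + b) then 1 else 1 / 2) *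
  (∏ p ∈ (Icc 3 z).filter (fun p : ℕ => p.Prime ∧ (p : ℤ) ∣ a ∧ (p : ℤ) ∣ b), (p : ℝ) / (p - 1)) *
  ∏ p ∈ (Icc 3 z).filter (fun p : ℕ => p.Prime ∧ ¬ (p : ℤ) ∣ a),
    (1 - (jacobiSym (b ^ 2 - 4 * a * c) p : ℝ) / (p - 1))

/-- The triples `(a, b, c)` with `1 ≤ a ≤ H` and `|b|, |c| ≤ H`. -/
noncomputable def triples (H : ℕ) : Finset (ℤ × ℤ × ℤ) :=
  Icc (1 : ℤ) H ×ˢ Icc (-(H : ℤ)) H ×ˢ Icc (-(H : ℤ)) H

/-- The integers `t` with `m < t ≤ m + M` such that `f(t)` is a (positive) prime. -/
def P (a b c : ℤ) (m M : ℕ) : Finset ℕ :=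
  (Ioc m (m + M)).filter (fun t : ℕ => (f a b c t).toNat.Prime)

/-- The sum of `1 / log f(t)` over the `t` with `m < t ≤ m + M` and `f(t) ≥ 2`. -/
noncomputable def logSum (a b c : ℤ) (m M : ℕ) : ℝ :=
  ∑ t ∈ (Ioc m (m + M)).filter (fun t : ℕ => 2 ≤ f a b c t), 1 / Real.log ((f a b c t : ℤ) : ℝ)

/-- `n` is a term of a progression of `k` terms in `S` with a difference `1 ≤ d ≤ D`. -/
def InProgression (S : Finset ℕ) (k : ℕ) (D : ℝ) (n : ℕ) : Prop :=
  ∃ b d : ℕ, 1 ≤ d ∧ (d : ℝ) ≤ D ∧ (∀ j < k, b + j * d ∈ S) ∧ ∃ j < k, n = b + j * d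

open Classical in
/-- The elements of `S` which do not lie in such a progression. -/
noncomputable def outside (S : Finset ℕ) (k : ℕ) (D : ℝ) : Finset ℕ :=
  S.filter (fun n => ¬ InProgression S k D n)

lemma adm_iff (a b c : ℤ) : Admissible a b c ↔ Pool.Agent.W468.ConjF.Admissible a b c := by
  unfold Admissible Pool.Agent.W468.ConjF.Admissible
  rw [even_iff_two_dvd, even_iff_two_dvd]

lemma partialC_eq (a b c : ℤ) (z : ℕ) : partialC a b c z = Pool.Agent.W468.ConjF.CF a b c z := by
  unfold partialC Pool.Agent.W468.ConjF.CF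
  have e1 : (Icc 3 z).filter (fun p : ℕ => p.Prime ∧ (p : ℤ) ∣ a ∧ (p : ℤ) ∣ b) =
      (range (z + 1)).filter (fun p : ℕ => p.Prime ∧ 3 ≤ p ∧ (p : ℤ) ∣ a ∧ (p : ℤ) ∣ b) := by
    ext p
    rw [mem_filter, mem_filter, mem_Icc, mem_range]
    constructor
    · rintro ⟨⟨h1, h2⟩, h3, h4, h5⟩
      exact ⟨by omega, h3, h1, h4, h5⟩
    · rintro ⟨h1, h3, h2, h4, h5⟩
      exact ⟨⟨h2, by omega⟩, h3, h4, h5⟩
  have e2 : (Icc 3 z).filter (fun p : ℕ => p.Prime ∧ ¬ (p : ℤ) ∣ a) =
      (range (z + 1)).filter (fun p : ℕ => p.Prime ∧ 3 ≤ p ∧ ¬ (p : ℤ) ∣ a) := by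
    ext p
    rw [mem_filter, mem_filter, mem_Icc, mem_range]
    constructor
    · rintro ⟨⟨h1, h2⟩, h3, h4⟩
      exact ⟨by omega, h3, h1, h4⟩
    · rintro ⟨h1, h3, h2, h4⟩
      exact ⟨⟨h2, by omega⟩, h3, h4⟩
  rw [e1, e2]
  congr 2
  by_cases h : Even (a + b)
  · rw [if_pos h, if_pos (even_iff_two_dvd.1 h)]
  · rw [if_neg h, if_neg (fun h2 => h (even_iff_two_dvd.2 h2))]

lemma f_eq (t : ℤ × ℤ × ℤ) (n : ℕ) :
    (Pool.Agent.TH892.pol (Run7.h976.FX.vec t)).eval (n : ℤ) = f t.1 t.2.1 t.2.2 n := by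
  rw [Run7.h976.FX.eval_vec]
  rfl

/-- **Szemerédi's theorem for the prime values of almost all quadratic polynomials of height `H`.**
For all `k ≥ 1`, `U`, `A`, `θ > 0` and `ε > 0` there are `B` and `H₀` such that for all `H ≥ H₀` all but at
most a proportion `1 / (log H) ^ U` of the triples `(a, b, c)`, `1 ≤ a ≤ H`, `|b|, |c| ≤ H`, have the following
property: if `(a, b, c)` is admissible, then the product `C(a, b, c)` converges to a number `C > 0`, and for
ALL windows `(m, m + M]` with `M ≥ H ^ θ`, `m ≤ M (log H) ^ A` and `m + M ≤ H / (log H) ^ B`: the number of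
the `t` in the window with `f(t)` prime is `2 C ∑ 1 / log f(t)` up to a relative error `1 / (log H) ^ U`, this
number is not zero, and in every set `S` of such `t` all the elements, with the exception of at most `ε`
times the number of all `t` in the window with `f(t)` prime, lie in progressions of `k` terms contained in
`S` with a difference `≤ (log H) ^ B`. -/
theorem result (k U A : ℕ) (θ ε : ℝ) (hk : 1 ≤ k) (hθ : 0 < θ) (hε : 0 < ε) : ∃ B H₀ : ℕ,
    ∀ H : ℕ, H₀ ≤ H → ∃ Bad ⊆ triples H, (#Bad : ℝ) ≤ #(triples H) / Real.log H ^ U ∧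
    ∀ a b c : ℤ, (a, b, c) ∈ triples H → (a, b, c) ∉ Bad → Admissible a b c →
      ∃ C : ℝ, 0 < C ∧ Tendsto (fun z => partialC a b c z) atTop (𝓝 C) ∧
      ∀ m M : ℕ, (H : ℝ) ^ θ ≤ M → (m : ℝ) ≤ M * Real.log H ^ A →
      ((m : ℝ) + M) * Real.log H ^ B ≤ H →
      |(#(P a b c m M) : ℝ) - 2 * C * logSum a b c m M| ≤
        2 * C * logSum a b c m M / Real.log H ^ U ∧ 0 < #(P a b c m M) ∧
      ∀ S ⊆ P a b c m M, (#(outside S k (Real.log H ^ B)) : ℝ) ≤ ε * #(P a b c m M) := by
  classical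
  obtain ⟨B, H₀, h0⟩ := Run7.h976.FX.quad_main k θ ε hθ hε U A
  refine ⟨B, H₀, fun H hH => ?_⟩
  obtain ⟨Bad, hB1, hB2, hB⟩ := h0 H hH
  refine ⟨Bad, hB1, hB2, fun a b c ht htB hadm => ?_⟩
  obtain ⟨C, hC, hlim, r⟩ := hB (a, b, c) ht htB ((adm_iff a b c).1 hadm)
  refine ⟨C, hC, ?_, fun m M h1 h2 h3 => ?_⟩
  · simp only [partialC_eq]
    exact hlim
  obtain ⟨r1, r2, r3⟩ := r m M h1 h2 h3
  have hP : Run7.h976.FX.PP (Pool.Agent.TH892.pol (Run7.h976.FX.vec (a, b, c))) m M = P a b c m M := by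
    unfold Run7.h976.FX.PP P
    simp only [f_eq]
  have hLg : Run7.h976.FX.LL (Pool.Agent.TH892.pol (Run7.h976.FX.vec (a, b, c))) m M = logSum a b c m M := by
    unfold Run7.h976.FX.LL logSum
    simp only [f_eq]
  rw [hP, hLg] at r1
  rw [hP] at r2 r3
  refine ⟨r1, r2, fun S hS => ?_⟩
  refine r3 (outside S k (Real.log H ^ B)) ((filter_subset _ _).trans hS) ?_
  intro b' d hd1 hd2
  by_contra hcon
  push Not at hcon
  have hmem : ∀ i < k, b' + i * d ∈ S := fun i hi => (mem_filter.1 (hcon i hi)).1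
  have h4 := (mem_filter.1 (hcon 0 (by omega))).2
  exact h4 ⟨b', d, hd1, hd2, hmem, 0, by omega, rfl⟩

end Pool.Agent.Results.MP_a17b09_nt.ProgressionsForAlmostAll
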